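import Pool.Agent.H.MP_86f3ed_an.Nu.Fin

open Pool.Agent.MP_86f3ed

namespace Pool.Agent.Results.MP_86f3ed_an.ApproximateImpliesAmenable

universe u v

/-- Every approximately amenable C*-algebra (unital or not, separable or not) is amenable. -/
theorem result (A : Type u) [NonUnitalCStarAlgebra A] (hA : ApproximatelyAmenable.{u, u} A) :
    Amenable.{u, v} A :=
  Nu.amenable_of_approximatelyAmenable hA

end Pool.Agent.Results.MP_86f3ed_an.ApproximateImpliesAmenable
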